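import Mathlib

/-!
# The cutting distance of even words to shuffle squares is unbounded over five or more letters

For `k ≥ 5` letters there are at most `(4 k) ^ n` shuffle squares of length `2 n`, hence at most
`(4 k) ^ n (2 n + 1) ^ (c + 1) (c + 1)!` words of length `2 n` that can be turned into a shuffle square
with `c` cuts; but there are at least `k ^ (2 n - k)` even words of length `2 n`.
-/

set_option autoImplicit false

namespace Pool.Agent.Results.MP_df1ab4_co.UnboundedCuttingDistance

open Filter Topology

variable {α : Type}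

/-- the letters of `W` at the places where the mask `β` has the value `b` -/
def sub (b : Bool) (β : List Bool) (W : List α) : List α :=
  ((W.zip β).filter (fun p => p.2 == b)).map Prod.fst

/-- `W` is a shuffle square: its places can be split (by a mask) into two sets which carry the same
subword. -/
def IsShuffleSquare (W : List α) : Prop :=
  ∃ β : List Bool, β.length = W.length ∧ sub true β W = sub false β W

/-- `W` is even: every letter occurs in it an even number of times -/
def IsEven [DecidableEq α] (W : List α) : Prop := ∀ a : α, Even (W.count a)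

/-- `W` can be cut into `c + 1` consecutive (possibly empty) blocks `B 0, …, B c` such that
`B (π 0) B (π 1) … B (π c)` is a shuffle square for some permutation `π`. -/
def CutsTo (c : ℕ) (W : List α) : Prop :=
  ∃ (B : Fin (c + 1) → List α) (π : Equiv.Perm (Fin (c + 1))),
    W = (List.ofFn B).flatten ∧ IsShuffleSquare (List.ofFn (B ∘ π)).flatten

/-- the cutting distance `c(W)` -/
noncomputable def cutDist (W : List α) : ℕ := sInf {c | CutsTo c W}

/-! ## Masks -/

theorem sub_cons (b x : Bool) (β : List Bool) (a : α) (W : List α) :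
    sub b (x :: β) (a :: W) = if x = b then a :: sub b β W else sub b β W := by
  unfold sub
  rw [List.zip_cons_cons, List.filter_cons]
  by_cases h : x = b
  · simp [h]
  · simp [h]

theorem sub_length (β : List Bool) (W : List α) (h : β.length = W.length) :
    (sub true β W).length + (sub false β W).length = W.length := by
  induction β generalizing W with
  | nil =>
    cases W with
    | nil => rfl
    | cons a W => simp at h
  | cons x β ih =>
    cases W with
    | nil => simp at h
    | cons a W =>
      have := ih W (by simpa using h)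
      rw [sub_cons, sub_cons]
      cases x <;> simp <;> omega

theorem sub_inj (β : List Bool) (W W' : List α) (h : β.length = W.length)
    (h' : β.length = W'.length) (ht : sub true β W = sub true β W')
    (hf : sub false β W = sub false β W') : W = W' := by
  induction β generalizing W W' with
  | nil =>
    cases W with
    | nil =>
      cases W' with
      | nil => rfl
      | cons a W' => simp at h'
    | cons a W => simp at h
  | cons x β ih =>
    cases W with
    | nil => simp at h
    | cons a W =>
      cases W' with
      | nil => simp at h'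
      | cons a' W' =>
        rw [sub_cons, sub_cons] at ht hf
        have hl : β.length = W.length := by simpa using h
        have hl' : β.length = W'.length := by simpa using h'
        cases x with
        | true =>
          simp only [if_true, Bool.true_eq_false, if_false, List.cons.injEq] at ht hf
          rw [ht.1, ih W W' hl hl' ht.2 hf]
        | false =>
          simp only [if_true, Bool.false_eq_true, if_false, List.cons.injEq] at ht hf
          rw [hf.1, ih W W' hl hl' ht hf.2]

/-! ## Every even word has a cutting distance -/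

theorem sub_append (b : Bool) (β γ : List Bool) (V W : List α) (h : β.length = V.length) :
    sub b (β ++ γ) (V ++ W) = sub b β V ++ sub b γ W := by
  unfold sub
  rw [List.zip_append h.symm, List.filter_append, List.map_append]

theorem sub_replicate (b x : Bool) (W : List α) :
    sub b (List.replicate W.length x) W = if x = b then W else [] := by
  induction W with
  | nil => simp [sub]
  | cons a W ih =>
    rw [List.length_cons, List.replicate_succ, sub_cons, ih]
    by_cases h : x = b <;> simp [h]

theorem square_isShuffleSquare (u : List α) : IsShuffleSquare (u ++ u) := by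
  refine ⟨List.replicate u.length true ++ List.replicate u.length false, by simp, ?_⟩
  rw [sub_append _ _ _ _ _ (by simp), sub_append _ _ _ _ _ (by simp)]
  simp only [sub_replicate]
  simp

theorem exists_half {k : ℕ} (W : List (Fin k)) (h : IsEven W) : ∃ u, W.Perm (u ++ u) := by
  classical
  let N : Multiset (Fin k) := ∑ a : Fin k, (W.count a / 2) • ({a} : Multiset (Fin k))
  have hN : ∀ a, N.count a = W.count a / 2 := by
    intro a
    simp only [N, Multiset.count_sum', Multiset.count_nsmul, Multiset.count_singleton]
    simp
  refine ⟨N.toList, ?_⟩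
  rw [List.perm_iff_count]
  intro a
  rw [List.count_append, ← Multiset.coe_count, ← Multiset.coe_count, Multiset.coe_toList, hN]
  obtain ⟨r, hr⟩ := h a
  rw [Multiset.coe_count]
  omega

theorem flatten_ofFn_single {n : ℕ} (g : Fin n → α) :
    (List.ofFn (fun i => [g i])).flatten = List.ofFn g := by
  induction n with
  | zero => simp
  | succ n ih =>
    rw [List.ofFn_succ, List.ofFn_succ, List.flatten_cons, ih]
    rfl

theorem exists_perm {k n : ℕ} (g g' : Fin n → Fin k) (h : (List.ofFn g).Perm (List.ofFn g')) :
    ∃ σ : Equiv.Perm (Fin n), g ∘ σ = g' := by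
  have key : g ∘ Tuple.sort g = g' ∘ Tuple.sort g' := by
    apply List.ofFn_injective
    exact ((((Tuple.sort g).ofFn_comp_perm g).trans h).trans
      ((Tuple.sort g').ofFn_comp_perm g').symm).eq_of_pairwise'
      (Tuple.monotone_sort g).sortedLE_ofFn.pairwise
      (Tuple.monotone_sort g').sortedLE_ofFn.pairwise
  refine ⟨(Tuple.sort g').symm.trans (Tuple.sort g), ?_⟩
  funext x
  have := congrFun key ((Tuple.sort g').symm x)
  simpa using this

/-- every even word can be turned into a shuffle square by cutting it into letters -/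
theorem exists_cuts {k : ℕ} (W : List (Fin k)) (h : IsEven W) : ∃ c, CutsTo c W := by
  classical
  rcases Nat.eq_zero_or_pos W.length with h0 | h0
  · have : W = [] := List.length_eq_zero_iff.1 h0
    subst this
    exact ⟨0, fun _ => [], 1, by simp, ⟨[], by simp [sub]⟩⟩
  · obtain ⟨c, hc⟩ : ∃ c, W.length = c + 1 := ⟨W.length - 1, by omega⟩
    obtain ⟨u, hu⟩ := exists_half W h
    have hulen : (u ++ u).length = c + 1 := by rw [← hu.length_eq, hc]
    let g : Fin (c + 1) → Fin k := fun i => W[i.val]'(by have := i.isLt; omega)
    let g' : Fin (c + 1) → Fin k := fun i => (u ++ u)[i.val]'(by have := i.isLt; omega)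
    have hg : List.ofFn g = W := by
      apply List.ext_getElem
      · rw [List.length_ofFn, hc]
      · intro i h1 h2
        simp only [List.getElem_ofFn, g]
    have hg' : List.ofFn g' = u ++ u := by
      apply List.ext_getElem
      · rw [List.length_ofFn, hulen]
      · intro i h1 h2
        simp only [List.getElem_ofFn, g']
    have hperm : (List.ofFn g).Perm (List.ofFn g') := by rw [hg, hg']; exact hu
    obtain ⟨σ, hσ⟩ := exists_perm g g' hperm
    refine ⟨c, fun i => [g i], σ, ?_, ?_⟩
    · rw [flatten_ofFn_single, hg]
    · have : ((fun i => [g i]) ∘ σ) = fun i => [g' i] := by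
        rw [← hσ]; rfl
      rw [this, flatten_ofFn_single, hg']
      exact square_isShuffleSquare u

theorem cutsTo_cutDist {k : ℕ} (W : List (Fin k)) (h : IsEven W) : CutsTo (cutDist W) W :=
  Nat.sInf_mem (exists_cuts W h)

/-! ## Few words can be turned into a shuffle square with few cuts -/

theorem flatten_perm_length {c : ℕ} (B : Fin c → List α) (π : Equiv.Perm (Fin c)) :
    (List.ofFn (B ∘ π)).flatten.length = (List.ofFn B).flatten.length := by
  rw [List.length_flatten, List.length_flatten]
  exact ((π.ofFn_comp_perm B).map List.length).sum_eq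

theorem mem_length_le {c : ℕ} (B : Fin c → List α) (i : Fin c) :
    (B i).length ≤ (List.ofFn B).flatten.length := by
  rw [List.length_flatten]
  apply List.single_le_sum (fun x _ => Nat.zero_le x)
  rw [List.mem_map]
  exact ⟨B i, by simp, rfl⟩

/-- the words of length `2 n` that can be turned into a shuffle square with `c` cuts -/
def X (k n c : ℕ) : Set (List (Fin k)) := {W | W.length = 2 * n ∧ CutsTo c W}

theorem card_X (k n c : ℕ) :
    (X k n c).ncard ≤ 2 ^ (2 * n) * k ^ n * ((2 * n + 1) ^ (c + 1) * (c + 1).factorial) := by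
  classical
  let T := (List.Vector Bool (2 * n) × List.Vector (Fin k) n) ×
    ((Fin (c + 1) → Fin (2 * n + 1)) × Equiv.Perm (Fin (c + 1)))
  have hT : Nat.card T =
      2 ^ (2 * n) * k ^ n * ((2 * n + 1) ^ (c + 1) * (c + 1).factorial) := by
    rw [Nat.card_prod, Nat.card_prod, Nat.card_prod, Nat.card_eq_fintype_card,
      Nat.card_eq_fintype_card, Nat.card_eq_fintype_card, Nat.card_eq_fintype_card, card_vector,
      card_vector, Fintype.card_perm]
    simp
  have key : ∀ W : X k n c, ∃ t : T, ∃ B : Fin (c + 1) → List (Fin k),
      (W : List (Fin k)) = (List.ofFn B).flatten ∧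
      t.1.1.toList.length = (List.ofFn (B ∘ t.2.2)).flatten.length ∧
      sub true t.1.1.toList (List.ofFn (B ∘ t.2.2)).flatten = t.1.2.toList ∧
      sub false t.1.1.toList (List.ofFn (B ∘ t.2.2)).flatten = t.1.2.toList ∧
      ∀ i, ((t.2.1 i : Fin (2 * n + 1)) : ℕ) = (B (t.2.2 i)).length := by
    rintro ⟨W, hlen, B, π, hW, β, hβ, hs⟩
    have hS : (List.ofFn (B ∘ π)).flatten.length = 2 * n := by
      rw [flatten_perm_length, ← hW, hlen]
    have h1 := sub_length β (List.ofFn (B ∘ π)).flatten hβ
    have h2 : (sub true β (List.ofFn (B ∘ π)).flatten).length = n := by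
      rw [← hs] at h1
      omega
    refine ⟨((⟨β, by omega⟩, ⟨sub true β (List.ofFn (B ∘ π)).flatten, h2⟩),
      (fun i => ⟨(B (π i)).length, ?_⟩, π)), B, hW, hβ, rfl, hs.symm, fun i => rfl⟩
    have := mem_length_le B (π i)
    rw [← hW, hlen] at this
    omega
  choose code hcode using key
  have hinj : Function.Injective code := by
    intro W W' h
    obtain ⟨B, h1, h2, h3, h4, h5⟩ := hcode W
    obtain ⟨B', h1', h2', h3', h4', h5'⟩ := hcode W'
    rw [← h] at h2' h3' h4' h5'
    have hS := sub_inj _ _ _ h2 h2' (h3.trans h3'.symm) (h4.trans h4'.symm)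
    have hL : (List.ofFn (B ∘ (code W).2.2)) = List.ofFn (B' ∘ (code W).2.2) := by
      rw [List.eq_iff_flatten_eq]
      refine ⟨hS, ?_⟩
      rw [List.map_ofFn, List.map_ofFn]
      congr 1
      funext i
      simp only [Function.comp]
      rw [← h5 i, ← h5' i]
    have hB : B ∘ (code W).2.2 = B' ∘ (code W).2.2 := List.ofFn_injective hL
    have hBB : B = B' := by
      funext i
      have := congrFun hB ((code W).2.2.symm i)
      simpa using this
    apply Subtype.ext
    rw [h1, h1', hBB]
  have h := Nat.card_le_card_of_injective code hinj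
  rw [hT] at h
  rwa [Nat.card_coe_set_eq] at h

theorem finite_X (k n c : ℕ) : (X k n c).Finite :=
  (List.finite_length_eq (Fin k) (2 * n)).subset (fun _ h => h.1)

/-! ## Many even words -/

/-- the letters which occur an odd number of times in `v` -/
def oddPart {k : ℕ} (v : List (Fin k)) : List (Fin k) :=
  (List.finRange k).filter (fun a => v.count a % 2 = 1)

theorem count_oddPart {k : ℕ} (v : List (Fin k)) (a : Fin k) :
    (oddPart v).count a = v.count a % 2 := by
  unfold oddPart
  have hnd := (List.nodup_finRange k).filter (fun a => decide (v.count a % 2 = 1))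
  by_cases h : v.count a % 2 = 1
  · rw [h]
    apply List.count_eq_one_of_mem hnd
    rw [List.mem_filter]
    exact ⟨List.mem_finRange a, by simpa using h⟩
  · rw [List.count_eq_zero_of_not_mem]
    · omega
    · rw [List.mem_filter]
      rintro ⟨_, h2⟩
      exact h (by simpa using h2)

theorem sum_count {k : ℕ} (v : List (Fin k)) : ∑ a : Fin k, v.count a = v.length := by
  induction v with
  | nil => simp
  | cons b v ih =>
    simp only [List.count_cons, List.length_cons, Finset.sum_add_distrib, ih]
    congr 1
    simp

theorem length_oddPart {k : ℕ} (v : List (Fin k)) :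
    (oddPart v).length % 2 = v.length % 2 ∧ (oddPart v).length ≤ k := by
  constructor
  · rw [← sum_count v, ← sum_count (oddPart v)]
    simp only [count_oddPart]
    rw [Finset.sum_nat_mod]
    rw [Finset.sum_nat_mod Finset.univ 2 (fun a => v.count a)]
    simp
  · unfold oddPart
    refine le_trans (List.length_filter_le _ _) ?_
    simp

/-- an even word of length `2 n` beginning with `v` -/
def fix {k : ℕ} (z : Fin k) (v : List (Fin k)) : List (Fin k) :=
  v ++ (oddPart v ++ List.replicate (k - (oddPart v).length) z)

theorem fix_even {k : ℕ} (z : Fin k) (v : List (Fin k)) (n : ℕ) (hk : k ≤ 2 * n)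
    (hv : v.length = 2 * n - k) : IsEven (fix z v) := by
  intro a
  unfold fix
  obtain ⟨h1, h2⟩ := length_oddPart v
  rw [List.count_append, List.count_append, count_oddPart, List.count_replicate, Nat.even_iff]
  split_ifs <;> omega

theorem fix_length {k : ℕ} (z : Fin k) (v : List (Fin k)) (n : ℕ) (hk : k ≤ 2 * n)
    (hv : v.length = 2 * n - k) : (fix z v).length = 2 * n := by
  unfold fix
  obtain ⟨h1, h2⟩ := length_oddPart v
  rw [List.length_append, List.length_append, List.length_replicate]
  omega

/-- the even words of length `2 n` -/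
def E (k n : ℕ) : Set (List (Fin k)) := {W | W.length = 2 * n ∧ IsEven W}

theorem finite_E (k n : ℕ) : (E k n).Finite :=
  (List.finite_length_eq (Fin k) (2 * n)).subset (fun _ h => h.1)

theorem card_E (k n : ℕ) (hk0 : 0 < k) (hk : k ≤ 2 * n) : k ^ (2 * n - k) ≤ (E k n).ncard := by
  classical
  have h1 : Nat.card (List.Vector (Fin k) (2 * n - k)) = k ^ (2 * n - k) := by
    rw [Nat.card_eq_fintype_card, card_vector, Fintype.card_fin]
  rw [← h1, ← Nat.card_coe_set_eq]
  have : Finite (E k n) := finite_E k n
  apply Nat.card_le_card_of_injective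
    (fun v : List.Vector (Fin k) (2 * n - k) =>
      (⟨fix ⟨0, hk0⟩ v.toList, fix_length _ _ n hk v.toList_length,
        fix_even _ _ n hk v.toList_length⟩ : E k n))
  intro v v' h
  have h2 : fix ⟨0, hk0⟩ v.toList = fix ⟨0, hk0⟩ v'.toList := congrArg Subtype.val h
  unfold fix at h2
  have h3 := List.append_inj_left h2 (by rw [v.toList_length, v'.toList_length])
  exact List.Vector.eq _ _ h3

/-! ## The comparison -/

theorem exists_large (k C : ℕ) (hk : 5 ≤ k) : ∃ n : ℕ, k ≤ 2 * n ∧
    (C + 1) * (2 ^ (2 * n) * k ^ n * ((2 * n + 1) ^ (C + 1) * (C + 1).factorial)) <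
      k ^ (2 * n - k) := by
  have h1 := tendsto_pow_const_div_const_pow_of_one_lt (C + 1) (show (1 : ℝ) < 5 / 4 by norm_num)
  obtain ⟨D, hD⟩ : ∃ D : ℝ, D = (C + 1) * ((C + 1).factorial) * 3 ^ (C + 1) * k ^ k := ⟨_, rfl⟩
  have hDpos : 0 < D := by
    rw [hD]
    have : (0 : ℝ) < k := by positivity
    positivity
  have h2 : ∀ᶠ n : ℕ in atTop, (n : ℝ) ^ (C + 1) / (5 / 4) ^ n < 1 / D :=
    h1.eventually_lt_const (by positivity)
  obtain ⟨n, hn1, hn2⟩ := (h2.and (eventually_ge_atTop (k + 1))).exists
  refine ⟨n, by omega, ?_⟩
  have hn0 : (1 : ℝ) ≤ n := by exact_mod_cast (by omega : 1 ≤ n)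
  have hk0 : (0 : ℝ) < k := by exact_mod_cast (by omega : 0 < k)
  have h3 : (n : ℝ) ^ (C + 1) * D < (5 / 4) ^ n := by
    rw [div_lt_div_iff₀ (by positivity) hDpos] at hn1
    linarith
  have h4 : ((5 : ℝ) / 4) ^ n ≤ (k / 4 : ℝ) ^ n := by
    apply pow_le_pow_left₀ (by norm_num)
    have : (5 : ℝ) ≤ k := by exact_mod_cast hk
    linarith
  have h5 : ((2 * n + 1 : ℝ)) ^ (C + 1) ≤ 3 ^ (C + 1) * (n : ℝ) ^ (C + 1) := by
    rw [← mul_pow]
    apply pow_le_pow_left₀ (by positivity)
    linarith
  have h6 : ((C + 1) * (2 ^ (2 * n) * k ^ n * ((2 * n + 1) ^ (C + 1) * (C + 1).factorial)) *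
      k ^ k : ℝ) < k ^ (2 * n) := by
    calc ((C + 1) * (2 ^ (2 * n) * k ^ n * ((2 * n + 1) ^ (C + 1) * (C + 1).factorial)) *
        k ^ k : ℝ)
        ≤ (C + 1) * (2 ^ (2 * n) * k ^ n * ((3 ^ (C + 1) * (n : ℝ) ^ (C + 1)) *
          (C + 1).factorial)) * k ^ k := by gcongr
      _ = (4 * k) ^ n * ((n : ℝ) ^ (C + 1) * D) := by
          rw [hD, pow_mul, mul_pow]
          norm_num
          ring
      _ < (4 * k) ^ n * (k / 4 : ℝ) ^ n := by
          apply mul_lt_mul_of_pos_left (lt_of_lt_of_le h3 h4) (by positivity)
      _ = k ^ (2 * n) := by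
          rw [← mul_pow, pow_mul]
          congr 1
          field_simp
  have h7 : k ^ (2 * n) = k ^ (2 * n - k) * k ^ k := by
    rw [← pow_add]
    congr 1
    omega
  have h8 : ((C + 1) * (2 ^ (2 * n) * k ^ n * ((2 * n + 1) ^ (C + 1) * (C + 1).factorial))) *
      k ^ k < k ^ (2 * n - k) * k ^ k := by
    rw [← h7]
    exact_mod_cast h6
  exact Nat.lt_of_mul_lt_mul_right h8

/-- For every `k ≥ 5` and every `C` there is an even word over `k` letters whose cutting distance to
the shuffle squares is larger than `C`. -/
theorem result : ∀ k : ℕ, 5 ≤ k → ∀ C : ℕ, ∃ W : List (Fin k), IsEven W ∧ C < cutDist W := by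
  classical
  intro k hk C
  by_contra hcon
  push Not at hcon
  obtain ⟨n, hn1, hn2⟩ := exists_large k C hk
  have hsub : E k n ⊆ ⋃ c ∈ Finset.range (C + 1), X k n c := by
    rintro W ⟨h1, h2⟩
    rw [Set.mem_iUnion₂]
    refine ⟨cutDist W, ?_, h1, cutsTo_cutDist W h2⟩
    rw [Finset.mem_range]
    have := hcon W h2
    omega
  have hfin : (⋃ c ∈ Finset.range (C + 1), X k n c).Finite :=
    Set.Finite.biUnion (Finset.range (C + 1)).finite_toSet (fun c _ => finite_X k n c)
  have h3 : (E k n).ncard ≤ ∑ c ∈ Finset.range (C + 1), (X k n c).ncard :=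
    le_trans (Set.ncard_le_ncard hsub hfin) (Finset.set_ncard_biUnion_le _ _)
  have h4 : ∑ c ∈ Finset.range (C + 1), (X k n c).ncard ≤
      (C + 1) * (2 ^ (2 * n) * k ^ n * ((2 * n + 1) ^ (C + 1) * (C + 1).factorial)) := by
    have : ∀ c ∈ Finset.range (C + 1), (X k n c).ncard ≤
        2 ^ (2 * n) * k ^ n * ((2 * n + 1) ^ (C + 1) * (C + 1).factorial) := by
      intro c hc
      rw [Finset.mem_range] at hc
      refine le_trans (card_X k n c) ?_
      apply Nat.mul_le_mul_left
      apply Nat.mul_le_mul
      · exact Nat.pow_le_pow_right (by omega) (by omega)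
      · exact Nat.factorial_le (by omega)
    refine le_trans (Finset.sum_le_sum this) ?_
    rw [Finset.sum_const, Finset.card_range, smul_eq_mul]
  have h5 := card_E k n (by omega) hn1
  omega

end Pool.Agent.Results.MP_df1ab4_co.UnboundedCuttingDistance
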